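import Pool.Agent.N802.WD.Ecz

/-!
# Multiple zeros and clusters of zeros of Dirichlet L-functions are rare in every weight `|R|²`

Unconditionally, let `χ` be a primitive Dirichlet character. For every `0 < θ < 1 / 2` there are
`c > 0` and `C` such that for all large `T`,
all `N ≥ 1`, all `K` with `N T ^ (1 / 2 + θ) ≤ K ≤ T / 2` and every Dirichlet polynomial
`R(t) = ∑ r(n) n ^ (- i t)` over integers `n ≤ N` with arbitrary complex coefficients:
`∑ m(ρ) exp (c √n(ρ)) |R(Im ρ)|² ≤ C K log T ∑ |r(n)|²`, where `ρ` runs over the nontrivial zeros of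
`L(s, χ)` with `T < Im ρ ≤ T + K`, `m(ρ)` is the multiplicity and `n(ρ)` is the number of zeros (on or
off the critical line, counted with multiplicity) whose ordinates are within `1 / log T` of that of
`ρ`.
-/

open Filter Topology Complex

namespace Pool.Agent.Results.MP_f259ea_nt.ClustersEveryWeight

/-- the zeros of `L(s, χ)` in the open critical strip with ordinates in `(T₁, T₂]` -/
def zeros {q : ℕ} [NeZero q] (χ : DirichletCharacter ℂ q) (T₁ T₂ : ℝ) : Set ℂ :=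
  {s : ℂ | DirichletCharacter.LFunction χ s = 0 ∧ 0 < s.re ∧ s.re < 1 ∧ T₁ < s.im ∧ s.im ≤ T₂}

/-- the multiplicity of a zero of `L(s, χ)` -/
noncomputable def mult {q : ℕ} [NeZero q] (χ : DirichletCharacter ℂ q) (s : ℂ) : ℕ :=
  analyticOrderNatAt (DirichletCharacter.LFunction χ) s

/-- the zeros of `L(s, χ)` in the open critical strip whose ordinates differ from `t` by at most
`h` -/
def near {q : ℕ} [NeZero q] (χ : DirichletCharacter ℂ q) (h t : ℝ) : Set ℂ :=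
  {s : ℂ | DirichletCharacter.LFunction χ s = 0 ∧ 0 < s.re ∧ s.re < 1 ∧ |s.im - t| ≤ h}

/-- the number of these zeros, counted with multiplicity -/
noncomputable def count {q : ℕ} [NeZero q] (χ : DirichletCharacter ℂ q) (h t : ℝ) : ℕ :=
  ∑ᶠ s ∈ near χ h t, mult χ s

/-- the Dirichlet polynomial `∑ r(n) n ^ (- i t)`, `n` in `S` -/
noncomputable def R (S : Finset ℕ) (r : ℕ → ℂ) (t : ℝ) : ℂ :=
  ∑ n ∈ S, r n * (n : ℂ) ^ (-(I * t))

section

variable {q : ℕ} [NeZero q] {χ : DirichletCharacter ℂ q} (hχ : χ.IsPrimitive)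

include hχ

lemma zeros_eq {T₁ T₂ : ℝ} (h : 1 ≤ T₁) :
    zeros χ T₁ T₂ = (H370.Zf (DirichletCharacter.LFunction χ) T₁ T₂ : Set ℂ) := by
  ext s
  rw [Finset.mem_coe, H370.mem_Zf (H370.good_dirichlet χ hχ) h]
  unfold zeros H370.zset
  simp only [Set.mem_ofPred_eq]
  tauto

open Classical in
lemma near_eq {T₁ T₂ h t : ℝ} (h1 : 1 ≤ T₁) (h2 : T₁ < t - h) (h3 : t + h ≤ T₂) : near χ h t =
    ((H370.Zf (DirichletCharacter.LFunction χ) T₁ T₂).filter (fun s => |s.im - t| ≤ h) :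
      Finset ℂ) := by
  ext s
  rw [Finset.mem_coe, Finset.mem_filter, H370.mem_Zf (H370.good_dirichlet χ hχ) h1]
  unfold near H370.zset
  simp only [Set.mem_ofPred_eq]
  constructor
  · rintro ⟨a, b, c, d⟩
    have d' := abs_le.1 d
    exact ⟨⟨b, c, by linarith [d'.1], by linarith [d'.2], a⟩, d⟩
  · rintro ⟨⟨b, c, _, _, a⟩, d⟩
    exact ⟨a, b, c, d⟩

/-- the sets of zeros are finite -/
theorem zeros_finite (T₁ T₂ : ℝ) (h : 1 ≤ T₁) : (zeros χ T₁ T₂).Finite := by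
  rw [zeros_eq hχ h]
  exact Finset.finite_toSet _

/-- the sets of zeros in the windows are finite -/
theorem near_finite (h t : ℝ) (h1 : 1 < t - h) : (near χ h t).Finite := by
  classical
  rw [near_eq hχ (T₁ := 1) (T₂ := t + h) le_rfl h1 le_rfl]
  exact Finset.finite_toSet _

lemma count_eq {T₁ T₂ h t : ℝ} (h1 : 1 ≤ T₁) (h2 : T₁ < t - h) (h3 : t + h ≤ T₂) :
    (count χ h t : ℝ) = N802.U.na (DirichletCharacter.LFunction χ) T₁ T₂ h t := by
  classical
  unfold count N802.U.na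
  rw [near_eq hχ h1 h2 h3, finsum_mem_coe_finset]
  push_cast
  rfl

end

lemma R_eq {S : Finset ℕ} {N : ℝ} (hS : ∀ n ∈ S, 1 ≤ n ∧ (n : ℝ) ≤ N) (r : ℕ → ℂ) (t : ℝ) :
    R S r t = N802.RP S r t := by
  unfold R N802.RP N802.TP
  refine Finset.sum_congr rfl fun n hn => ?_
  have hn0 : (n : ℂ) ≠ 0 := by
    have := (hS n hn).1
    exact_mod_cast (by omega : n ≠ 0)
  congr 1
  unfold N802.mn
  rw [Complex.cpow_def_of_ne_zero hn0, ← Complex.natCast_log]
  congr 1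
  rw [Nat.cast_one, Real.log_one]
  push_cast
  ring

theorem result : ∀ (q : ℕ) [NeZero q] (χ : DirichletCharacter ℂ q), χ.IsPrimitive →
    ∀ θ : ℝ, 0 < θ → θ < 1 / 2 → ∃ c C T₀ : ℝ, 0 < c ∧ 0 < C ∧ ∀ T : ℝ, T₀ ≤ T →
    ∀ N K : ℝ, 1 ≤ N → N * T ^ (1 / 2 + θ) ≤ K → K ≤ T / 2 →
    ∀ S : Finset ℕ, (∀ n ∈ S, 1 ≤ n ∧ (n : ℝ) ≤ N) → ∀ r : ℕ → ℂ,
    ∑ᶠ s ∈ zeros χ T (T + K), (mult χ s : ℝ) *
      Real.exp (c * Real.sqrt (count χ (1 / Real.log T) s.im)) * ‖R S r s.im‖ ^ 2 ≤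
      C * (K * Real.log T * ∑ n ∈ S, ‖r n‖ ^ 2) := by
  classical
  intro q _ χ hχ θ hθ hθ1
  obtain ⟨c, C, T0, hc, hC, hT0, h⟩ := N802.WD.ecz_chi χ hχ θ hθ hθ1
  refine ⟨c, C, T0, hc, hC, fun T hT N K hN hK1 hK2 S hS r => ?_⟩
  have hT1 : 1 ≤ T := by linarith
  have hL : 1 < Real.log T := by
    rw [Real.lt_log_iff_exp_lt (by linarith)]
    have := Real.exp_one_lt_d9
    linarith
  have hL1 : 1 / Real.log T < 1 := by
    rw [div_lt_one (by linarith)]
    exact hL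
  have h1 := h T hT N K hN hK1 hK2 S hS r
  refine le_trans (le_of_eq ?_) h1
  rw [zeros_eq hχ hT1, finsum_mem_coe_finset]
  refine Finset.sum_congr rfl fun s hs => ?_
  rw [H370.mem_Zf (H370.good_dirichlet χ hχ) hT1] at hs
  obtain ⟨-, -, h2, h3, -⟩ := hs
  rw [R_eq hS, count_eq hχ (T₁ := T - 1) (T₂ := T + K + 1) (by linarith) (by linarith) (by linarith)]
  rfl

end Pool.Agent.Results.MP_f259ea_nt.ClustersEveryWeight
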