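import Pool.Agent.N802.WD.Fin3

/-!
# Distinct zeros of Dirichlet L-functions have a share of 83.62 % in every weight `|R|²`

Unconditionally, let `χ` be a primitive Dirichlet character. For every `ε > 0` there is a `δ > 0`
such that for all large `T`, all `T ^ (1 - δ) ≤ K ≤ T / 2` and every Dirichlet polynomial
`R(t) = ∑ r(n) n ^ (- i t)` over integers `n ≤ T ^ δ` with arbitrary complex coefficients: the sum
of `|R(γ)|²` over all zeros `β + iγ` of `L(s, χ)` with `T < γ ≤ T + K`, counted with multiplicity,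
is between `1 - ε` and `1 + ε` times `(K / 2π) log T ∑ |r(n)|²`, and the distinct zeros in the right
half `β ≥ 1 / 2` of the critical strip alone, each counted once, make up at least `83.625 % - ε` of
it.
-/

open Filter Topology Complex
open scoped ComplexConjugate

namespace Pool.Agent.Results.MP_f259ea_nt.DistinctZerosEveryWeight

/-- the zeros of `L(s, χ)` in the open critical strip with ordinates in `(T₁, T₂]` -/
def zeros {q : ℕ} [NeZero q] (χ : DirichletCharacter ℂ q) (T₁ T₂ : ℝ) : Set ℂ :=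
  {s : ℂ | DirichletCharacter.LFunction χ s = 0 ∧ 0 < s.re ∧ s.re < 1 ∧ T₁ < s.im ∧ s.im ≤ T₂}

/-- the multiplicity of a zero of `L(s, χ)` -/
noncomputable def mult {q : ℕ} [NeZero q] (χ : DirichletCharacter ℂ q) (s : ℂ) : ℕ :=
  analyticOrderNatAt (DirichletCharacter.LFunction χ) s

/-- the zeros on the critical line or to its right with ordinates in `(T₁, T₂]`, each of them
taken once -/
def rightZeros {q : ℕ} [NeZero q] (χ : DirichletCharacter ℂ q) (T₁ T₂ : ℝ) : Set ℂ :=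
  {s : ℂ | s ∈ zeros χ T₁ T₂ ∧ 1 / 2 ≤ s.re}

/-- the Dirichlet polynomial `∑ r(n) n ^ (- i t)`, `n` in `S` -/
noncomputable def R (S : Finset ℕ) (r : ℕ → ℂ) (t : ℝ) : ℂ :=
  ∑ n ∈ S, r n * (n : ℂ) ^ (-(I * t))

/-- the main term `(K / 2π) log T ∑ |r(n)|²` -/
noncomputable def main (T K : ℝ) (S : Finset ℕ) (r : ℕ → ℂ) : ℝ :=
  K / (2 * Real.pi) * Real.log T * ∑ n ∈ S, ‖r n‖ ^ 2

section

variable {q : ℕ} [NeZero q] {χ : DirichletCharacter ℂ q} (hχ : χ.IsPrimitive)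

include hχ

lemma zeros_eq {T₁ T₂ : ℝ} (h : 1 ≤ T₁) :
    zeros χ T₁ T₂ = (H370.Zf (DirichletCharacter.LFunction χ) T₁ T₂ : Set ℂ) := by
  ext s
  rw [Finset.mem_coe, H370.mem_Zf (H370.good_dirichlet χ hχ) h]
  unfold zeros H370.zset
  simp only [Set.mem_ofPred_eq]
  tauto

open Classical in
lemma rightZeros_eq {T₁ T₂ : ℝ} (h : 1 ≤ T₁) : rightZeros χ T₁ T₂ =
    ((H370.Zf (DirichletCharacter.LFunction χ) T₁ T₂).filter (fun s => 1 / 2 ≤ s.re) :
      Finset ℂ) := by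
  ext s
  rw [Finset.mem_coe, Finset.mem_filter, ← Finset.mem_coe, ← zeros_eq hχ h]
  rfl

/-- the sets of zeros are finite -/
theorem zeros_finite (T₁ T₂ : ℝ) (h : 1 ≤ T₁) : (zeros χ T₁ T₂).Finite := by
  rw [zeros_eq hχ h]
  exact Finset.finite_toSet _

end

lemma R_eq {S : Finset ℕ} {N : ℝ} (hS : ∀ n ∈ S, 1 ≤ n ∧ (n : ℝ) ≤ N) (r : ℕ → ℂ) (t : ℝ) :
    R S r t = N802.RP S r t := by
  unfold R N802.RP N802.TP
  refine Finset.sum_congr rfl fun n hn => ?_
  have hn0 : (n : ℂ) ≠ 0 := by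
    have := (hS n hn).1
    exact_mod_cast (by omega : n ≠ 0)
  congr 1
  unfold N802.mn
  rw [Complex.cpow_def_of_ne_zero hn0, ← Complex.natCast_log]
  congr 1
  rw [Nat.cast_one, Real.log_one]
  push_cast
  ring

theorem result : ∀ {q : ℕ} [NeZero q] (χ : DirichletCharacter ℂ q), χ.IsPrimitive →
    ∀ ε : ℝ, 0 < ε → ∃ δ T₀ : ℝ, 0 < δ ∧ ∀ T : ℝ, T₀ ≤ T →
    ∀ K : ℝ, T ^ (1 - δ) ≤ K → K ≤ T / 2 →
    ∀ S : Finset ℕ, (∀ n ∈ S, 1 ≤ n ∧ (n : ℝ) ≤ T ^ δ) → ∀ r : ℕ → ℂ,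
    (0.83625 - ε) * main T K S r ≤ ∑ᶠ s ∈ rightZeros χ T (T + K), ‖R S r s.im‖ ^ 2 ∧
    |∑ᶠ s ∈ zeros χ T (T + K), (mult χ s : ℝ) * ‖R S r s.im‖ ^ 2 - main T K S r| ≤
      ε * main T K S r := by
  classical
  intro q _ χ hχ ε hε
  have hF := H370.good_dirichlet χ hχ
  obtain ⟨e, he0, he1, heε⟩ : ∃ e : ℝ, 0 < e ∧ e < 1 ∧ e ≤ ε :=
    ⟨min ε (1 / 2), lt_min hε (by norm_num), (min_le_right _ _).trans_lt (by norm_num),
      min_le_left _ _⟩
  obtain ⟨δ, T0, hδ, hT0, h⟩ := N802.WD.distinct_chi χ hχ e he0 he1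
  refine ⟨δ, T0, hδ, fun T hT K hK1 hK2 S hS r => ?_⟩
  have hT1' : 1 ≤ T := by linarith
  obtain ⟨h1, h2, h3⟩ := h T hT K hK1 hK2 S hS r
  have hK0 : 0 ≤ K := le_trans (by positivity) hK1
  have hm : 0 ≤ main T K S r := by
    unfold main
    have := Real.log_nonneg hT1'
    have := Real.pi_pos
    positivity
  have hm' : K / (2 * Real.pi) * Real.log T * N802.w1 S r = main T K S r := rfl
  rw [hm'] at h1 h2 h3
  have e1 : ∑ᶠ s ∈ rightZeros χ T (T + K), ‖R S r s.im‖ ^ 2 =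
      ∑ s ∈ H370.Zf (DirichletCharacter.LFunction χ) T (T + K),
        N802.X.cd s * ‖N802.RP S r s.im‖ ^ 2 := by
    rw [rightZeros_eq hχ hT1', finsum_mem_coe_finset, Finset.sum_filter,
      ← H370.sum_refl hF hT1']
    refine Finset.sum_congr rfl fun s _ => ?_
    have hre : (1 - conj s).re = 1 - s.re := by simp
    have him : (1 - conj s).im = s.im := by simp
    rw [hre, him, R_eq hS]
    unfold N802.X.cd
    by_cases hs : s.re ≤ 1 / 2
    · rw [if_pos hs, if_pos (by linarith), one_mul]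
    · rw [if_neg hs, if_neg (by linarith), zero_mul]
  have e2 : ∑ᶠ s ∈ zeros χ T (T + K), (mult χ s : ℝ) * ‖R S r s.im‖ ^ 2 =
      ∑ s ∈ H370.Zf (DirichletCharacter.LFunction χ) T (T + K),
        (H370.mult (DirichletCharacter.LFunction χ) s : ℝ) * ‖N802.RP S r s.im‖ ^ 2 := by
    rw [zeros_eq hχ hT1', finsum_mem_coe_finset]
    exact Finset.sum_congr rfl fun s _ => by rw [R_eq hS]; rfl
  have hem : e * main T K S r ≤ ε * main T K S r := mul_le_mul_of_nonneg_right heε hm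
  rw [e1, e2]
  refine ⟨?_, ?_⟩
  · refine le_trans ?_ h1
    linarith
  · rw [abs_le]
    constructor <;> linarith

end Pool.Agent.Results.MP_f259ea_nt.DistinctZerosEveryWeight
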