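import Pool.Agent.N880.HD.Fin

/-!
# Distinct zeros of all primitive Dirichlet L-functions up to any power of the conductor

All primitive Dirichlet characters `χ` of conductor `q`, `X < q ≤ Y`, are counted with the weight
`1/q²`.  Let `h = (2 + τ)/(1 + τ)`, where `τ ≥ 0` is any real number.  For the heights `T` up to
`X ^ τ` the number of distinct zeros of `L(s, χ)` with `T < Im s ≤ 2T` is on average at least
`(3 - c(h) - ε)/2` times the number of the zeros counted with multiplicity, where
`c(h) = h/2 + cot(h/√2)/√2` is the function of Montgomery and Taylor.  Since `h > 1`, this is larger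
than the proportion `(3 - c(1))/2 = 0.8362...` for one character, and it is so for every fixed power
`τ`: on average over the primitive characters of conductor about `T ^ θ` (every `θ > 0`) more than
the Montgomery-Taylor proportion of the zeros up to the height `T` are distinct.

The proof: a trace inequality for the zeros, with no hypothesis on zeros off the line (starting
modules `Pool.Agent.H385R2` of helper385 and others); the large sieve inequality with the sharp
constant over the primitive characters, for coefficients supported on a short block of integers of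
length `ε X²`; Bessel's inequality for Gaussian windows of length `T / log (X T)` in the height,
which separates the prime sums of length `X ^ (2 - δ) T` into such blocks.
-/

open Complex

set_option autoImplicit false

namespace Pool.Agent.Results.MP_f259ea_nt.PolynomialHeights

/-- The Dirichlet L-function of a character modulo `q` (the value for `q = 0` is never used). -/
noncomputable def Lfun (q : ℕ) (χ : DirichletCharacter ℂ q) : ℂ → ℂ :=
  if h : q = 0 then 0 else
    haveI : NeZero q := ⟨h⟩
    DirichletCharacter.LFunction χ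

/-- The zeros of `F` in the open critical strip with ordinate in `(T, 2T]`. -/
def zeros (F : ℂ → ℂ) (T : ℝ) : Set ℂ :=
  {s : ℂ | 0 < s.re ∧ s.re < 1 ∧ T < s.im ∧ s.im ≤ 2 * T ∧ F s = 0}

/-- The number of these zeros, counted with multiplicity. -/
noncomputable def N (F : ℂ → ℂ) (T : ℝ) : ℕ := ∑ᶠ s ∈ zeros F T, analyticOrderNatAt F s

/-- The number of the distinct zeros among them. -/
noncomputable def Nd (F : ℂ → ℂ) (T : ℝ) : ℕ := (zeros F T).ncard

/-- The sum of `f q χ / q²` over all primitive Dirichlet characters `χ` of conductor `q`,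
`X < q ≤ Y`. -/
noncomputable def fam (X Y : ℕ) (f : (q : ℕ) → DirichletCharacter ℂ q → ℕ) : ℝ :=
  ∑ q ∈ Finset.Ioc X Y, (1 / (q : ℝ) ^ 2) *
    ∑ᶠ χ : {χ : DirichletCharacter ℂ q // χ.IsPrimitive}, (f q χ : ℝ)

/-- The function of Montgomery and Taylor. -/
noncomputable def c (h : ℝ) : ℝ := h / 2 + Real.cot (h / Real.sqrt 2) / Real.sqrt 2

/-- **Main theorem.**  For every `τ ≥ 0` and `ε > 0` there are `K`, `η > 0` and `X₀` such that for
`X ≥ X₀`, `K X ≤ Y ≤ X ^ (1 + η)` and `4 (log X)² ≤ T ≤ X ^ τ` the average over all primitive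
Dirichlet characters of conductor in `(X, Y]`, with weight `1/q²`, of the number of distinct zeros
with `0 < Re s < 1`, `T < Im s ≤ 2T`, is at least `(3 - c((2 + τ)/(1 + τ)) - ε)/2` times that of the
number of these zeros counted with multiplicity.  The function `c` is decreasing on `(0, 2]`, and
`c(1) ≤ 1.327503`; so this proportion is at least `0.836248 - ε/2` for every `τ`. -/
theorem result : (∀ τ ε : ℝ, 0 ≤ τ → 0 < ε → ∃ K η X0 : ℝ, 1 ≤ K ∧ 0 < η ∧ 1 ≤ X0 ∧
    ∀ (X Y : ℕ) (T : ℝ), X0 ≤ X → K * X ≤ Y → (Y : ℝ) ≤ (X : ℝ) ^ (1 + η) →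
      4 * (Real.log X) ^ 2 ≤ T → T ≤ (X : ℝ) ^ τ →
      (3 - c ((2 + τ) / (1 + τ)) - ε) / 2 * fam X Y (fun q χ => N (Lfun q χ) T) ≤
        fam X Y (fun q χ => Nd (Lfun q χ) T)) ∧
    (∀ a b : ℝ, 0 < a → a ≤ b → b ≤ 2 → c b ≤ c a) ∧ c 1 ≤ 1.327503 := by
  refine ⟨fun τ ε hτ hε => ?_, fun a b h1 h2 h3 => Pool.Agent.N880.HD.cH_anti h1 h2 h3,
    Pool.Agent.N880.HD.cH_le le_rfl one_le_two⟩
  obtain ⟨K, η, X0, hK, hη, hX0, h⟩ := Pool.Agent.N880.HD.fin_main τ ε hτ hε
  exact ⟨K, η, X0, hK, hη, hX0, fun X Y T a1 a2 a3 a4 a5 => (h X Y T a1 a2 a3 a4 a5).2⟩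

end Pool.Agent.Results.MP_f259ea_nt.PolynomialHeights
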