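import Pool.Agent.N217.UM.Single

/-!
# Distinct zeros of Dirichlet L-functions, uniformly in the modulus

The question and the known results are about one fixed character `χ` and `T → ∞`.  Here the modulus
`q` may grow with `T`: unconditionally, for every `A ≥ 0` and every integer `j ≥ 1` the number of
distinct zeros with ordinate in `(T, 2T]` satisfies
`N_d(T, 2T) ≥ ((2 j + 1 - c(1 / (1 + A))) / (j (j + 1)) - ε) N(T, 2T)`
for ALL primitive characters of ALL moduli `q ≤ T ^ A`, as soon as `T ≥ C(A, j, ε)`, where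
`c(h) = h/2 + cot(h/√2)/√2`; in particular `N_d(T, 2T) ≥ (3 (1 + A) / (3 (1 + A)² + 1) - ε) N(T, 2T)`
(a positive proportion for every `A`).  The proportion of simple zeros on the critical line is at
least `2 - c(1 / (1 + A)) - ε` in the same range.  There is an absolute `δ > 0` such that for all
`q ≤ T ^ δ`, `T ≥ C`, the two proportions are at least 83.625 and 67.25 per cent.

The mathematics is in the starting modules `Pool.Agent.Y762` (theorem `single_j` and the core theorem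
`core_gen` for a set of characters): a trace inequality for the zeros weighted by test functions of
Montgomery-Taylor type (no hypothesis on zeros off the line), the explicit formula with a Gaussian
weight and constants that do not depend on `χ`, and a mean square of the sums over primes in which
the off-diagonal terms are counted trivially.
-/

set_option autoImplicit false

open Filter Topology Complex MeasureTheory

namespace Pool.Agent.Results.MP_f259ea_nt.UniformModulus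

/-- the multiplicity of `s` as a zero of `L(s, χ)` -/
noncomputable def mult {q : ℕ} [NeZero q] (χ : DirichletCharacter ℂ q) (s : ℂ) : ℕ :=
  analyticOrderNatAt (DirichletCharacter.LFunction χ) s

/-- the nontrivial zeros of `L(s, χ)` with ordinate in `(T₁, T₂]` -/
def zeros {q : ℕ} [NeZero q] (χ : DirichletCharacter ℂ q) (T₁ T₂ : ℝ) : Set ℂ :=
  {s : ℂ | DirichletCharacter.LFunction χ s = 0 ∧ 0 < s.re ∧ s.re < 1 ∧ T₁ < s.im ∧ s.im ≤ T₂}

/-- the number of nontrivial zeros with ordinate in `(T₁, T₂]`, counted with multiplicity -/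
noncomputable def N {q : ℕ} [NeZero q] (χ : DirichletCharacter ℂ q) (T₁ T₂ : ℝ) : ℕ :=
  ∑ᶠ s ∈ zeros χ T₁ T₂, mult χ s

/-- the number of distinct zeros with ordinate in `(T₁, T₂]` -/
noncomputable def Nd {q : ℕ} [NeZero q] (χ : DirichletCharacter ℂ q) (T₁ T₂ : ℝ) : ℕ :=
  (zeros χ T₁ T₂).ncard

/-- the number of simple zeros on the critical line with ordinate in `(T₁, T₂]` -/
noncomputable def Ns {q : ℕ} [NeZero q] (χ : DirichletCharacter ℂ q) (T₁ T₂ : ℝ) : ℕ :=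
  {s : ℂ | s ∈ zeros χ T₁ T₂ ∧ s.re = 1 / 2 ∧ mult χ s = 1}.ncard

/-- the constant `c(h) = h/2 + cot(h/√2)/√2`; `c(1) = c_MT⁻¹ = 1.3274...` -/
noncomputable def c (h : ℝ) : ℝ := h / 2 + Real.cot (h / Real.sqrt 2) / Real.sqrt 2

section

variable {q : ℕ} [NeZero q] (χ : DirichletCharacter ℂ q) (T₁ T₂ : ℝ)

theorem zeros_eq : zeros χ T₁ T₂ = H370.zset (DirichletCharacter.LFunction χ) T₁ T₂ := by
  ext s
  simp only [zeros, H370.zset, Set.mem_ofPred_eq]
  tauto

theorem N_eq : N χ T₁ T₂ = H370.NN (DirichletCharacter.LFunction χ) T₁ T₂ := by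
  unfold N H370.NN
  rw [zeros_eq]
  rfl

theorem Nd_eq : Nd χ T₁ T₂ = H370.Nd (DirichletCharacter.LFunction χ) T₁ T₂ := by
  unfold Nd H370.Nd
  rw [zeros_eq]

theorem Ns_eq : Ns χ T₁ T₂ = H370.Ns (DirichletCharacter.LFunction χ) T₁ T₂ := by
  unfold Ns H370.Ns
  rw [zeros_eq]
  rfl

end

/-! ### the function `c` -/

lemma sin_sub_nonneg {x : ℝ} (h0 : 0 ≤ x) (h1 : x ≤ 1) : x * Real.cos x ≤ Real.sin x := by
  rcases h0.eq_or_lt with rfl | h0
  · simp
  have hpi := Real.pi_gt_three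
  have h2 := Real.lt_tan h0 (by linarith)
  have hc : 0 < Real.cos x := Real.cos_pos_of_mem_Ioo ⟨by linarith, by linarith⟩
  rw [Real.tan_eq_sin_div_cos, lt_div_iff₀ hc] at h2
  exact h2.le

lemma cot_aux {x : ℝ} (h0 : 0 ≤ x) (h1 : x ≤ 1) :
    x * Real.cos x ≤ (1 - x ^ 2 / 3) * Real.sin x := by
  have hmono : MonotoneOn (fun x : ℝ => (1 - x ^ 2 / 3) * Real.sin x - x * Real.cos x)
      (Set.Icc 0 1) := by
    have hd : ∀ x : ℝ, HasDerivAt (fun x : ℝ => (1 - x ^ 2 / 3) * Real.sin x - x * Real.cos x)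
        (x / 3 * (Real.sin x - x * Real.cos x)) x := by
      intro x
      have h1 : HasDerivAt (fun x : ℝ => 1 - x ^ 2 / 3) (-(2 * x / 3)) x := by
        have := ((hasDerivAt_id x).fun_pow 2).div_const 3
        have h2 := this.const_sub 1
        refine h2.congr_deriv ?_
        simp
      have h3 := (h1.mul (Real.hasDerivAt_sin x)).sub ((hasDerivAt_id x).mul (Real.hasDerivAt_cos x))
      refine h3.congr_deriv ?_
      simp only [id]
      ring
    apply monotoneOn_of_deriv_nonneg (convex_Icc 0 1)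
    · exact fun x _ => (hd x).continuousAt.continuousWithinAt
    · exact fun x _ => (hd x).differentiableAt.differentiableWithinAt
    · intro x hx
      rw [interior_Icc] at hx
      rw [(hd x).deriv]
      have := sin_sub_nonneg hx.1.le hx.2.le
      have h3 := hx.1
      apply mul_nonneg (by linarith) (by linarith)
  have h2 := hmono (show (0 : ℝ) ∈ Set.Icc (0 : ℝ) 1 by simp) (show x ∈ Set.Icc (0 : ℝ) 1 from ⟨h0, h1⟩) h0
  simp only at h2
  norm_num at h2
  linarith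

/-- `c(h) ≤ 1/h + h/3` -/
theorem c_le (h : ℝ) (h0 : 0 < h) (h1 : h ≤ 1) : c h ≤ 1 / h + h / 3 := by
  have hs : (0 : ℝ) < Real.sqrt 2 := by positivity
  have hs2 : Real.sqrt 2 ^ 2 = 2 := Real.sq_sqrt (by norm_num)
  have hs1 : 1 < Real.sqrt 2 := Real.one_lt_sqrt_two
  set x := h / Real.sqrt 2 with hx
  have hx0 : 0 < x := by positivity
  have hx1 : x ≤ 1 := by
    rw [hx, div_le_one hs]; linarith
  have hpi := Real.pi_gt_three
  have hsin : 0 < Real.sin x := Real.sin_pos_of_pos_of_lt_pi hx0 (by linarith)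
  have h2 := cot_aux hx0.le hx1
  have h3 : Real.cot x ≤ (1 - x ^ 2 / 3) / x := by
    rw [Real.cot_eq_cos_div_sin, div_le_div_iff₀ hsin hx0]
    linarith
  unfold c
  rw [← hx]
  have h4 : Real.cot x / Real.sqrt 2 ≤ (1 - x ^ 2 / 3) / x / Real.sqrt 2 :=
    div_le_div_of_nonneg_right h3 hs.le
  have h5 : (1 - x ^ 2 / 3) / x / Real.sqrt 2 = 1 / h - h / 6 := by
    rw [hx, div_pow, hs2]
    field_simp
    ring
  linarith

/-- the chord of `1 / x` lies above the function -/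
lemma chord (x : ℝ) (hx : 1 ≤ x) : ∃ j : ℕ, 1 ≤ j ∧ 1 / x ≤ (2 * j + 1 - x) / (j * (j + 1)) := by
  have hx0 : 0 ≤ x := by linarith
  refine ⟨⌊x⌋₊, (Nat.one_le_floor_iff x).mpr hx, ?_⟩
  have h1 : ((⌊x⌋₊ : ℕ) : ℝ) ≤ x := Nat.floor_le hx0
  have h2 : x < (⌊x⌋₊ : ℕ) + 1 := Nat.lt_floor_add_one x
  have h3 : 1 ≤ ((⌊x⌋₊ : ℕ) : ℝ) := by exact_mod_cast (Nat.one_le_floor_iff x).mpr hx
  set a : ℝ := ((⌊x⌋₊ : ℕ) : ℝ) with ha
  rw [div_le_div_iff₀ (by linarith) (by positivity)]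
  nlinarith [mul_nonneg (sub_nonneg.mpr h1) (sub_nonneg.mpr h2.le)]

/-- the range of the moduli -/
lemma range_of {q : ℕ} [NeZero q] {A h T : ℝ} (hh : 0 < h) (hA : (A + 1) * h = 1) (hT : 1 ≤ T)
    (hq : (q : ℝ) ≤ T ^ A) : ((q : ℝ) * T) ^ h ≤ T := by
  have hT0 : 0 < T := by linarith
  have h1 : (q : ℝ) * T ≤ T ^ (A + 1) := by
    rw [Real.rpow_add_one hT0.ne']
    exact mul_le_mul_of_nonneg_right hq hT0.le
  calc ((q : ℝ) * T) ^ h ≤ (T ^ (A + 1)) ^ h := Real.rpow_le_rpow (by positivity) h1 hh.le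
    _ = T := by rw [← Real.rpow_mul hT0.le, hA, Real.rpow_one]

/-- **Distinct zeros of Dirichlet L-functions, uniformly in the modulus** `q ≤ T ^ A`. -/
theorem result :
    -- all `A ≥ 0` and all `j ≥ 1`
    (∀ (j : ℕ) (A ε : ℝ), 1 ≤ j → 0 ≤ A → 0 < ε → ∃ C : ℝ, 1 ≤ C ∧
      ∀ (q : ℕ) [NeZero q] (χ : DirichletCharacter ℂ q) (T : ℝ),
        χ.IsPrimitive → C ≤ T → (q : ℝ) ≤ T ^ A →
        (zeros χ T (2 * T)).Finite ∧
        (1 - ε) * (T / (2 * Real.pi) * Real.log (q * T)) ≤ (N χ T (2 * T) : ℝ) ∧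
        ((2 * j + 1 - c (1 / (1 + A))) / (j * (j + 1)) - ε) * (N χ T (2 * T) : ℝ) ≤
          (Nd χ T (2 * T) : ℝ) ∧
        (2 - c (1 / (1 + A)) - ε) * (N χ T (2 * T) : ℝ) ≤ (Ns χ T (2 * T) : ℝ)) ∧
    -- a positive proportion for every `A`
    (∀ A ε : ℝ, 0 ≤ A → 0 < ε → ∃ C : ℝ, 1 ≤ C ∧
      ∀ (q : ℕ) [NeZero q] (χ : DirichletCharacter ℂ q) (T : ℝ),
        χ.IsPrimitive → C ≤ T → (q : ℝ) ≤ T ^ A →
        (3 * (1 + A) / (3 * (1 + A) ^ 2 + 1) - ε) * (N χ T (2 * T) : ℝ) ≤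
          (Nd χ T (2 * T) : ℝ)) ∧
    -- small moduli
    (∃ δ C : ℝ, 0 < δ ∧ 1 ≤ C ∧
      ∀ (q : ℕ) [NeZero q] (χ : DirichletCharacter ℂ q) (T : ℝ),
        χ.IsPrimitive → C ≤ T → (q : ℝ) ≤ T ^ δ →
        0.83625 * (N χ T (2 * T) : ℝ) ≤ (Nd χ T (2 * T) : ℝ) ∧
        0.6725 * (N χ T (2 * T) : ℝ) ≤ (Ns χ T (2 * T) : ℝ)) := by
  have part1 : ∀ (j : ℕ) (A ε : ℝ), 1 ≤ j → 0 ≤ A → 0 < ε → ∃ C : ℝ, 1 ≤ C ∧
      ∀ (q : ℕ) [NeZero q] (χ : DirichletCharacter ℂ q) (T : ℝ),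
        χ.IsPrimitive → C ≤ T → (q : ℝ) ≤ T ^ A →
        (zeros χ T (2 * T)).Finite ∧
        (1 - ε) * (T / (2 * Real.pi) * Real.log (q * T)) ≤ (N χ T (2 * T) : ℝ) ∧
        ((2 * j + 1 - c (1 / (1 + A))) / (j * (j + 1)) - ε) * (N χ T (2 * T) : ℝ) ≤
          (Nd χ T (2 * T) : ℝ) ∧
        (2 - c (1 / (1 + A)) - ε) * (N χ T (2 * T) : ℝ) ≤ (Ns χ T (2 * T) : ℝ) := by
    intro j A ε hj hA hε
    set h : ℝ := 1 / (1 + A) with hh
    have hA1 : 0 < 1 + A := by linarith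
    have hh0 : 0 < h := by positivity
    have hh1 : h ≤ 1 := by rw [hh, div_le_one hA1]; linarith
    have hAh : (A + 1) * h = 1 := by rw [hh]; field_simp; ring
    obtain ⟨C1, hC1, H1⟩ := Pool.Agent.Y762.single_j j hj h ε hh0 hh1 hε
    obtain ⟨C2, hC2, H2⟩ := Pool.Agent.N217.UM.single_cH h ε hh0 hh1 hε
    refine ⟨max C1 C2, le_max_of_le_left hC1, ?_⟩
    intro q _ χ T hχ hT hq
    have hT1 : 1 ≤ T := hC1.trans ((le_max_left _ _).trans hT)
    have hqT : ((q : ℝ) * T) ^ h ≤ T := range_of hh0 hAh hT1 hq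
    obtain ⟨a1, a2⟩ := H1 q χ T hχ ((le_max_left _ _).trans hT) hqT
    obtain ⟨b1, _, _⟩ := H2 q χ T hχ ((le_max_right _ _).trans hT) hqT
    have hc : Pool.Agent.Y762.cH h = c h := rfl
    rw [hc, ← N_eq, ← Nd_eq] at a1
    rw [hc, ← N_eq, ← Ns_eq] at b1
    rw [← N_eq] at a2
    have hN0 : (0 : ℝ) ≤ (N χ T (2 * T) : ℝ) := Nat.cast_nonneg _
    refine ⟨?_, a2, ?_, by linarith⟩
    · rw [zeros_eq]
      exact Pool.Agent.TH243.CYC.finite_zset χ T (2 * T) hT1
    · have hj1 : (1 : ℝ) ≤ j := by exact_mod_cast hj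
      have hjj : 0 < (j : ℝ) * (j + 1) := by positivity
      refine le_of_mul_le_mul_left ?_ hjj
      refine le_trans (le_of_eq ?_) (le_trans (sub_le_self _ ?_) a1)
        (b := (2 * j + 1 - (c h + ε)) * (N χ T (2 * T) : ℝ) -
          ε * ((j : ℝ) * (j + 1) - 1) * (N χ T (2 * T) : ℝ))
      · field_simp
        ring
      · have : 0 ≤ (j : ℝ) * (j + 1) - 1 := by nlinarith
        positivity
  refine ⟨part1, ?_, ?_⟩
  · intro A ε hA hε
    set h : ℝ := 1 / (1 + A) with hh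
    have hA1 : 0 < 1 + A := by linarith
    have hh0 : 0 < h := by positivity
    have hh1 : h ≤ 1 := by rw [hh, div_le_one hA1]; linarith
    have hx : c h ≤ 1 / h + h / 3 := c_le h hh0 hh1
    have hx1 : 1 ≤ 1 / h + h / 3 := by
      have : 1 ≤ 1 / h := by rw [le_div_iff₀ hh0]; linarith
      have : 0 ≤ h / 3 := by positivity
      linarith
    obtain ⟨j, hj, hjc⟩ := chord (1 / h + h / 3) hx1
    obtain ⟨C, hC, H⟩ := part1 j A ε hj hA hε
    refine ⟨C, hC, ?_⟩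
    intro q _ χ T hχ hT hq
    obtain ⟨_, _, a3, _⟩ := H q χ T hχ hT hq
    refine le_trans ?_ a3
    refine mul_le_mul_of_nonneg_right ?_ (Nat.cast_nonneg _)
    have hj1 : (1 : ℝ) ≤ j := by exact_mod_cast hj
    have e1 : 3 * (1 + A) / (3 * (1 + A) ^ 2 + 1) = 1 / (1 / h + h / 3) := by
      rw [hh]
      field_simp
    have e2 : (2 * j + 1 - (1 / h + h / 3)) / ((j : ℝ) * (j + 1)) ≤
        (2 * j + 1 - c h) / (j * (j + 1)) :=
      div_le_div_of_nonneg_right (by linarith) (by positivity)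
    rw [e1]
    linarith
  · obtain ⟨h, C, hh0, hh1, hC, H⟩ := Pool.Agent.N217.UM.single_small
    have hδ : 0 < 1 / h - 1 := by
      rw [sub_pos, lt_div_iff₀ hh0]; linarith
    refine ⟨1 / h - 1, C, hδ, hC, ?_⟩
    intro q _ χ T hχ hT hq
    have hT1 : 1 ≤ T := hC.trans hT
    have hqT : ((q : ℝ) * T) ^ h ≤ T := range_of hh0 (by field_simp; ring) hT1 hq
    obtain ⟨b1, b2⟩ := H q χ T hχ hT hqT
    rw [← N_eq, ← Ns_eq] at b1
    rw [← N_eq, ← Nd_eq] at b2
    constructor <;> linarith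

end Pool.Agent.Results.MP_f259ea_nt.UniformModulus
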